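import Pool.Agent.H58.CP.ColAct
import Pool.Agent.H95.CP.FinA

set_option autoImplicit false

/-! # An active column of the final test -/

namespace Pool.Agent.H97.CP

open Finset ComplexConjugate H95.CP H67.CM Pool.Agent.H98.CP Pool.Agent.H74.CM
open Pool.Agent.H58.CP

/-- `size M` is small -/
lemma size_small {M : ℕ} (hM : 32 ≤ M) : 4 * Nat.size M ≤ M := by
  have h1 : 6 ≤ Nat.size M := by
    rw [← Nat.lt_iff_add_one_le, Nat.lt_size]
    omega
  obtain ⟨s, hs⟩ : ∃ s, Nat.size M = s + 1 := ⟨Nat.size M - 1, by omega⟩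
  have h2 : 2 ^ s ≤ M := by
    rw [← Nat.lt_size, hs]
    exact Nat.lt_succ_self s
  have h3 : ∀ s, 5 ≤ s → 4 * (s + 1) ≤ 2 ^ s := by
    intro s hs
    induction s, hs using Nat.le_induction with
    | base => norm_num
    | succ n hn ih =>
      rw [pow_succ]
      omega
  rw [hs]
  exact (h3 s (by omega)).trans h2

lemma lg_zero {M : ℕ} (hM : 32 ≤ M) : Lg M 0 := by
  unfold Lg
  have h1 : 6 ≤ Nat.size M := by
    rw [← Nat.lt_iff_add_one_le, Nat.lt_size]
    omega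
  calc 100 * (0 + 2) ^ 2 ≤ 8 ^ 6 := by norm_num
    _ ≤ 8 ^ Nat.size M := Nat.pow_le_pow_right (by norm_num) h1

lemma jok_fin {lf : ℕ} (hl : 10 ≤ lf) : Jok 0 (JF lf) lf := by
  refine ⟨?_, hl, le_refl _⟩
  unfold JF
  calc 1000 * (0 + 2) ^ 2 ≤ 8 ^ 6 := by norm_num
    _ ≤ 8 ^ (60 * (lf + 1)) := Nat.pow_le_pow_right (by norm_num) (by omega)

/-- the far part: finitely many candidates at every scale -/
theorem far_fin (hW : StWl) {lf M : ℕ} (hLg : Lg M 0) (hJ : Jok 0 (JF lf) lf) (act : Finset ℕ)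
    (h : ℕ → G M → ℝ) (b : ℕ)
    (hRS : RS M 0 0 (JF lf) lf 0 act h) (hE : Elg M 0 (JF lf) lf act b) :
    ∃ Js : ℕ → Finset (G M),
      (∀ s lam, lam ∈ Js s → ∃ a ∈ act, a < b ∧ Nat.size (b - a) = s ∧
        lam ∈ DD M 1 b (M - a) ∧
        ∀ x, ‖wl 0 b (M - b) (Psi h b) lam x‖ ≤ 64 * CV 0 / 2 ^ gapLen (JF lf) (b - a)) ∧
      ∀ (F : G M → ℂ) (μ : G M), ∑ lam : G M, F lam * co2 (wl 0 b (M - b) (Psi h b) lam) μ
        = ∑ s ∈ range (Nat.size M + 1), ∑ lam ∈ Js s,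
            F lam * co2 (wl 0 b (M - b) (Psi h b) lam) μ := by
  classical
  have hJ0 : 0 < JF lf := by unfold JF; omega
  set Z : Finset (G M) := univ.filter (fun lam => ¬ ∀ x, wl 0 b (M - b) (Psi h b) lam x = 0)
    with hZ
  have key : ∀ lam : G M, ∃ a : ℕ, lam ∈ Z → (a ∈ act ∧ lam ∈ DD M 1 b (M - a) ∧
      ∀ x, ‖wl 0 b (M - b) (Psi h b) lam x‖ ≤ 64 * CV 0 / 2 ^ gapLen (JF lf) (b - a)) := by
    intro lam
    by_cases hl : lam ∈ Z
    · rcases hW M 0 0 _ _ _ act h b hRS hLg hJ hE lam with h1 | ⟨a, ha, h2, h3⟩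
      · rw [hZ, mem_filter] at hl
        exact absurd h1 hl.2
      · refine ⟨a, fun _ => ⟨ha, h2, fun x => ?_⟩⟩
        have h4 := h3 x
        rw [pow_zero, mul_one] at h4
        exact h4
    · exact ⟨0, fun h1 => absurd h1 hl⟩
  choose A hA using key
  have hlt : ∀ lam ∈ Z, A lam < b := by
    intro lam hl
    have := hE.gap _ (hA lam hl).1
    omega
  refine ⟨fun s => Z.filter (fun lam => Nat.size (b - A lam) = s), ?_, ?_⟩
  · intro s lam hl
    rw [mem_filter] at hl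
    exact ⟨A lam, (hA lam hl.1).1, hlt lam hl.1, hl.2, (hA lam hl.1).2⟩
  · intro F μ
    have h1 : ∑ lam : G M, F lam * co2 (wl 0 b (M - b) (Psi h b) lam) μ
        = ∑ lam ∈ Z, F lam * co2 (wl 0 b (M - b) (Psi h b) lam) μ := by
      symm
      refine Finset.sum_subset (Finset.subset_univ _) fun lam _ hl => ?_
      rw [hZ, mem_filter, not_and, not_not] at hl
      have h2 : wl 0 b (M - b) (Psi h b) lam = fun _ => 0 := funext (hl (mem_univ _))
      rw [h2]
      unfold co2 E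
      simp
    rw [h1]
    symm
    refine Finset.sum_fiberwise_of_maps_to (g := fun lam => Nat.size (b - A lam)) ?_ _
    intro lam hl
    rw [mem_range]
    have h3 := hlt lam hl
    have h4 : b < M := hE.rng.2.1
    have h5 : Nat.size (b - A lam) ≤ Nat.size M := Nat.size_le_size (by omega)
    omega

/-- the unknown coefficients of one scale -/
theorem sum_fin {j0 lf M : ℕ} (hj0 : 1 ≤ j0) (act : Finset ℕ)
    (h : ℕ → G M → ℝ) (b : ℕ) (phi : G M → ℂ)
    (hRS : RS M 0 0 (JF lf) lf 0 act h) (hE : Elg M 0 (JF lf) lf act b)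
    (Jss : Finset (G M)) (s : ℕ)
    (hJs : ∀ lam, lam ∈ Jss → ∃ a ∈ act, a < b ∧ Nat.size (b - a) = s ∧ lam ∈ DD M 1 b (M - a))
    (w : Cf M) (hk : Know j0 j0 phi w) (hcm : (colm w.Lam b).card ≤ 8 ^ M) :
    ∑ lam ∈ Jss, ‖co2 (cx w.g) lam - phi lam‖ ≤ 8 ^ M * Real.sqrt (TH (j0 + s) / 8 ^ M) := by
  classical
  have hone : ∀ lam ∈ Jss, ‖co2 (cx w.g) lam - phi lam‖ ≤ Real.sqrt (TH (j0 + s) / 8 ^ M) := by
    intro lam hl
    obtain ⟨a, ha, hab, hs, hD⟩ := hJs lam hl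
    have hRa := hRS.rng a ha
    have hRb := hE.rng
    obtain ⟨a1, a2, a3, a4⟩ := hRa
    obtain ⟨b1, b2, b3, b4⟩ := hRb
    have hMM : M + (b - a) - b = M - a := by omega
    have hR' : Rg M (b - a) b := by
      refine ⟨b1, b2, by omega, ?_⟩
      rw [hMM]
      exact a4
    have hD' : lam ∈ DD M j0 b (M + (b - a) - b) := by
      rw [hMM]
      have h1 := mem_DD.1 hD
      exact mem_DD.2 ⟨h1.1.mono hj0, h1.2.mono hj0⟩
    have h1 := hk.2 b (b - a) hR' hcm lam hD'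
    have h2 : max j0 (j0 + Nat.size (b - a)) = j0 + s := by
      rw [hs]
      exact max_eq_right (Nat.le_add_right _ _)
    rw [h2] at h1
    exact Real.le_sqrt_of_sq_le h1
  have hzero : ∀ lam ∈ Jss, lam ∉ Jss ∩ colm w.Lam b → ‖co2 (cx w.g) lam - phi lam‖ = 0 := by
    intro lam hl hn
    obtain ⟨a, ha, hab, hs, hD⟩ := hJs lam hl
    have hb1 := (mem_DD.1 hD).1
    have hL : lam ∉ w.Lam := by
      intro hL
      exact hn (mem_inter.2 ⟨hl, mem_colm.2 ⟨hL, hb1.gt, hb1.lt⟩⟩)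
    have h1 := w.spec lam hL
    have h2 : phi lam = 0 := by
      by_contra h3
      exact hL (hk.1 lam h3)
    rw [h1, h2]
    simp
  calc ∑ lam ∈ Jss, ‖co2 (cx w.g) lam - phi lam‖
      = ∑ lam ∈ Jss ∩ colm w.Lam b, ‖co2 (cx w.g) lam - phi lam‖ := by
        symm
        exact Finset.sum_subset Finset.inter_subset_left hzero
    _ ≤ ∑ _lam ∈ Jss ∩ colm w.Lam b, Real.sqrt (TH (j0 + s) / 8 ^ M) :=
        Finset.sum_le_sum fun lam hl => hone lam (mem_inter.1 hl).1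
    _ = ((Jss ∩ colm w.Lam b).card : ℝ) * Real.sqrt (TH (j0 + s) / 8 ^ M) := by
        rw [Finset.sum_const, nsmul_eq_mul]
    _ ≤ 8 ^ M * Real.sqrt (TH (j0 + s) / 8 ^ M) := by
        apply mul_le_mul_of_nonneg_right _ (Real.sqrt_nonneg _)
        have : (Jss ∩ colm w.Lam b).card ≤ 8 ^ M :=
          (Finset.card_le_card Finset.inter_subset_right).trans hcm
        exact_mod_cast this

/-- the sample error of one scale -/
theorem tau_fin (M j0 lf s n : ℕ) (hl : j0 + 1 ≤ lf) (hn : (8 : ℝ) ^ M / 2 ^ (4 * s) ≤ n)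
    (hn0 : 0 < n) :
    4 * (8 ^ M * Real.sqrt (TH (j0 + s) / 8 ^ M)) ^ 2 *
      ((64 * CV 0) ^ 2 / 2 ^ (JF lf + 60 * s)) / n ≤ ((1 / 2 ^ 24) * (1 / 2 : ℝ) ^ s) ^ 2 := by
  have hnpos : (0 : ℝ) < n := by exact_mod_cast hn0
  have h8M : (0 : ℝ) < 8 ^ M := by positivity
  have e1 : (8 ^ M * Real.sqrt (TH (j0 + s) / 8 ^ M)) ^ 2 = 8 ^ M * TH (j0 + s) := by
    rw [mul_pow, Real.sq_sqrt (by unfold TH; positivity)]
    field_simp
  rw [e1, div_le_iff₀ hnpos]
  have e2 : ((1 / 2 ^ 24) * (1 / 2 : ℝ) ^ s) ^ 2 * ((8 : ℝ) ^ M / 2 ^ (4 * s))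
      ≤ ((1 / 2 ^ 24) * (1 / 2 : ℝ) ^ s) ^ 2 * n := mul_le_mul_of_nonneg_left hn (by positivity)
  refine le_trans ?_ e2
  have e3 : (64 * CV 0) ^ 2 ≤ (8 : ℝ) ^ 14 := by
    unfold CV
    norm_num
  have e4 : (2 : ℝ) ^ (JF lf + 60 * s) = 8 ^ (20 * (lf + 1) + 20 * s) := by
    rw [show (8 : ℝ) = 2 ^ 3 by norm_num, ← pow_mul]
    congr 1
    unfold JF
    ring
  have e5 : (4 : ℝ) ≤ 8 ^ 1 := by norm_num
  calc 4 * (8 ^ M * TH (j0 + s)) * ((64 * CV 0) ^ 2 / 2 ^ (JF lf + 60 * s))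
      ≤ 8 ^ 1 * (8 ^ M * TH (j0 + s)) * ((8 : ℝ) ^ 14 / 2 ^ (JF lf + 60 * s)) := by
        unfold TH
        gcongr
    _ = 8 ^ (1 + M + 16 * (j0 + s) + 14) / 8 ^ (20 * (lf + 1) + 20 * s) := by
        rw [e4]
        unfold TH
        rw [pow_add, pow_add, pow_add]
        ring
    _ ≤ ((1 / 2 ^ 24) * (1 / 2 : ℝ) ^ s) ^ 2 * ((8 : ℝ) ^ M / 2 ^ (4 * s)) := by
        have e6 : ((1 / 2 ^ 24) * (1 / 2 : ℝ) ^ s) ^ 2 * ((8 : ℝ) ^ M / 2 ^ (4 * s))
            = 8 ^ M / (8 ^ 16 * 8 ^ (2 * s)) := by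
          rw [mul_pow, one_div_pow, one_div_pow]
          have h1 : (8 : ℝ) ^ (2 * s) = (2 ^ s) ^ 2 * 2 ^ (4 * s) := by
            rw [show (8 : ℝ) = 2 ^ 3 by norm_num, ← pow_mul, ← pow_mul, ← pow_add]
            congr 1
            ring
          have h2 : ((2 : ℝ) ^ 24) ^ 2 = 8 ^ 16 := by norm_num
          rw [h1, h2]
          field_simp
        rw [e6, div_le_div_iff₀ (by positivity) (by positivity), ← pow_add, ← pow_add, ← pow_add]
        apply pow_le_pow_right₀ (by norm_num)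
        omega

/-- the value of the test of a difference -/
lemma tst_diff {M b c : ℕ} (Ψ T g : G M → ℝ) (η : Gr (b + 1) (c + 1) → ℝ) (t : G M → ℝ)
    (ht : ∀ x, loc 0 b c (cx (fun z => T z * Ψ z)) x = t x) :
    tst 0 b c Ψ (fun x => T x - g x) η = avgR _ _ (fun y => η y *
      ((t (pt (b + 1) (c + 1) y) : ℂ)
        - loc 0 b c (cx (fun x => g x * Ψ x)) (pt (b + 1) (c + 1) y)).re) := by
  unfold tst
  congr 1
  funext y
  congr 2
  rw [← ht]
  have h1 : cx (fun x => (T x - g x) * Ψ x)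
      = fun x => cx (fun z => T z * Ψ z) x + (-1) * cx (fun x => g x * Ψ x) x := by
    funext x
    unfold cx
    push_cast
    ring
  rw [h1]
  unfold loc
  rw [conv_add_right, conv_smul_right]
  ring

theorem finAct (hW : StWl) : StFinAct := by
  classical
  refine ⟨1, fun j0 hj0 => ⟨max 10 (j0 + 1), fun lf hlf => ⟨32, fun M hM tb act h b phi hRS hE =>
    ?_⟩⟩⟩
  have hlf10 : 10 ≤ lf := le_trans (le_max_left _ _) hlf
  have hlfj : j0 + 1 ≤ lf := le_trans (le_max_right _ _) hlf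
  have hLg := lg_zero hM
  have hsz := size_small hM
  obtain ⟨Js, hJs, hsum⟩ := far_fin hW hLg (jok_fin hlf10) act h b hRS hE
  have hRb := hE.rng
  obtain ⟨hLb, hLc'⟩ := H6.CP.Rg_large hRb hLg
  obtain ⟨hdb, hdc'⟩ := H6.CP.Rg_dvd hRb
  have hLc : Large 0 (M - b) := hLc'
  have hdc : 8 ^ (M - b + 1) ∣ LL M := hdc'
  have hbM : b < M := hRb.2.1
  set c := M - b with hc
  have hbc : b + c = M := by omega
  have h6b : 6 * 8 ^ b ≤ LL M := by
    have := Nat.le_of_dvd (by unfold LL; positivity) hdb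
    rw [pow_succ] at this
    omega
  have h6c : 6 * 8 ^ c ≤ LL M := by
    have := Nat.le_of_dvd (by unfold LL; positivity) hdc
    rw [pow_succ] at this
    omega
  set Mu := DD M 1 b c with hMu
  have h8M : (0 : ℝ) < Real.sqrt (8 ^ M) := by positivity
  set R : ℝ := Real.sqrt (TH j0 / 8 ^ M) with hRdef
  have hReq : R = 8 ^ (8 * j0) / Real.sqrt (8 ^ M) := sqrt_TH j0 M
  have hR0 : 0 < R := by rw [hReq]; positivity
  set θ : ℝ := R / (16 * 8 ^ (6 * (2 * j0) + 8)) with hθ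
  have hθ0 : 0 < θ := by positivity
  have hRθ : R / θ = 16 * 8 ^ (6 * (2 * j0) + 8) := by
    rw [hθ]
    field_simp
  set n : ℕ → ℕ := fun s => 8 ^ M / 2 ^ (4 * s) + 1 with hn
  set m : Mu → ℂ := fun μ => (ka 0 b (fa μ.1.1) : ℂ) * (ka 0 c (fa μ.1.2) : ℂ) with hm
  set known : Mu → ℂ := fun μ => ∑ lam : G M, phi lam * co2 (wl 0 b c (Psi h b) lam) μ.1
    with hknown
  have hn' : ∀ s, (8 : ℝ) ^ M / 2 ^ (4 * s) ≤ n s := by
    intro s
    have h1 : (8 ^ M : ℕ) < 2 ^ (4 * s) * (8 ^ M / 2 ^ (4 * s) + 1) :=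
      Nat.lt_mul_div_succ _ (by positivity)
    have h2 : ((8 ^ M : ℕ) : ℝ) < ((2 ^ (4 * s) * n s : ℕ) : ℝ) := by exact_mod_cast h1
    push_cast at h2
    rw [div_le_iff₀ (by positivity)]
    linarith
  obtain ⟨PP, hPP, hPP'⟩ := active_code (Mu := Mu) (range (Nat.size M + 1))
    (fun s => (Js s : Type)) (fun s lam μ => co2 (wl 0 b c (Psi h b) lam.1) μ.1)
    (fun s => 8 ^ M * Real.sqrt (TH (j0 + s) / 8 ^ M))
    (fun s => (64 * CV 0) ^ 2 / 2 ^ (JF lf + 60 * s)) n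
    (fun s => (1 / 2 ^ 24) * (1 / 2 : ℝ) ^ s)
    (fun s _ => by unfold TH; positivity)
    (fun s _ => by positivity)
    (by
      intro s _ lam
      obtain ⟨a, ha, hab, hs, -, hbd⟩ := hJs s lam.1 lam.2
      have h1 := wl_L2 (Psi h b) lam.1 _ hbd
      have h2 : ∑ μ : Mu, ‖co2 (wl 0 b c (Psi h b) lam.1) μ.1‖ ^ 2
          ≤ ∑ μ : G M, ‖co2 (wl 0 b c (Psi h b) lam.1) μ‖ ^ 2 := by
        rw [Finset.sum_coe_sort Mu (fun μ => ‖co2 (wl 0 b c (Psi h b) lam.1) μ‖ ^ 2)]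
        exact Finset.sum_le_sum_of_subset_of_nonneg (Finset.subset_univ _)
          (fun _ _ _ => by positivity)
      refine h2.trans (h1.trans ?_)
      rw [div_pow]
      apply div_le_div_of_nonneg_left (by positivity) (by positivity)
      rw [← pow_mul]
      apply pow_le_pow_right₀ (by norm_num)
      unfold gapLen
      have hsl : Nat.size (b - a) ≤ Nat.log 2 (b - a) + 1 :=
        Nat.size_le.2 (Nat.lt_pow_succ_log_self one_lt_two _)
      omega)
    (fun s _ => Nat.succ_pos _)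
    (fun s _ => by positivity)
    (fun s _ => tau_fin M j0 lf s (n s) hlfj (hn' s) (Nat.succ_pos _))
    m (by
      intro μ
      rw [hm]
      simp only
      rw [norm_mul, Complex.norm_real, Complex.norm_real, Real.norm_eq_abs, Real.norm_eq_abs,
        abs_of_nonneg (ka_nonneg hLb _), abs_of_nonneg (ka_nonneg hLc _)]
      exact mul_le_one₀ (ka_le_one hLb _) (ka_nonneg hLc _) (ka_le_one hLc _))
    known (fun μ => phi μ.1) θ R hθ0 (8 ^ M) (by positivity)
  -- the candidates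
  set F' : Finset (Fin (8 ^ M)) → (Mu → ℂ) → G M → ℂ := fun s q x => (tb.t b s x : ℂ) - pol Mu q x
    with hF'
  set good : Finset (Fin (8 ^ M)) → (Mu → ℂ) → (Gr (b + 1) (c + 1) → ℝ) → Prop := fun s q η =>
    Adm 0 b c (JF lf) 0 (Psi h b) η ∧
      1 / 2 ^ 20 - 1 / 2 ^ 22 ≤ avgR _ _ (fun y => η y * (F' s q (pt (b + 1) (c + 1) y)).re)
    with hgood
  set et : Finset (Fin (8 ^ M)) → (Mu → ℂ) → (Gr (b + 1) (c + 1) → ℝ) := fun s q =>
    if hq : ∃ η, good s q η then hq.choose else fun _ => 0 with het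
  refine ⟨((univ : Finset (Finset (Fin (8 ^ M)))) ×ˢ PP).image (fun q => (q.1, et q.1 q.2.2)),
    ?_, ?_⟩
  · have hcard1 : ((((univ : Finset (Finset (Fin (8 ^ M)))) ×ˢ PP).image
        (fun q => (q.1, et q.1 q.2.2))).card : ℝ) ≤ 2 ^ ((8 : ℝ) ^ M) * (PP.card : ℝ) := by
      have e1 : (((univ : Finset (Finset (Fin (8 ^ M)))) ×ˢ PP).image
        (fun q => (q.1, et q.1 q.2.2))).card ≤ 2 ^ (8 ^ M) * PP.card := by
        refine card_image_le.trans ?_
        rw [card_product, card_univ, Fintype.card_finset, Fintype.card_fin]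
      have e2 : (2 : ℝ) ^ ((8 : ℝ) ^ M) = (2 : ℝ) ^ (8 ^ M : ℕ) := by
        have e3 : ((8 : ℝ) ^ M) = ((8 ^ M : ℕ) : ℝ) := by push_cast; rfl
        rw [e3, Real.rpow_natCast]
      rw [e2]
      exact_mod_cast e1
    refine hcard1.trans ?_
    have hA := bits_near (M := M) (u := 0) (j := 2 * j0) (X := Fintype.card Mu) (by
      rw [Fintype.card_coe, add_zero]
      have := card_DD M 1 b c
      rw [hbc] at this
      exact this) (R / θ) hRθ
    have hB := bits_far (M := M) (u := 0) hsz (fun s => Fintype.card (Js s)) n (fun s => rfl) (by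
      intro s
      simp only [Fintype.card_coe]
      exact card_scale (u := 0) (j := 0) hbM (Js s) (fun lam hl => by
        obtain ⟨a, h1, h2, h3, h4, -⟩ := hJs s lam hl
        exact ⟨a, h1, h2, h3, h4⟩))
    have hC := hPP.trans (mul_le_mul hA hB (Finset.prod_nonneg fun s _ => by positivity)
      (by positivity))
    refine (mul_le_mul_of_nonneg_left hC (by positivity)).trans ?_
    rw [← Real.rpow_add (by norm_num), ← Real.rpow_add (by norm_num)]
    apply Real.rpow_le_rpow_of_exponent_le (by norm_num)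
    have h3 : (0 : ℝ) < 8 ^ M := by positivity
    have h5 : (0 : ℝ) ≤ j0 := Nat.cast_nonneg j0
    push_cast
    nlinarith [mul_nonneg h3.le h5]
  · intro w T s hk hcm hT hex
    obtain ⟨ηs, hηs1, hηs2⟩ := hex
    have hR : ∀ μ : Mu, ‖co2 (cx w.g) μ.1 - phi μ.1‖ ≤ R := by
      intro μ
      have h1 : μ.1 ∈ DD M j0 b (M + 0 - b) := by
        have h2 := mem_DD.1 μ.2
        exact mem_DD.2 ⟨h2.1.mono hj0, h2.2.mono hj0⟩
      exact know_block (u := 0) (by simp) hk hRb hcm _ h1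
    obtain ⟨q, hq, hq1, hq2, hq3⟩ := hPP' (fun μ => co2 (cx w.g) μ.1)
      (fun s lam => co2 (cx w.g) lam.1 - phi lam.1)
      (by
        intro s _
        rw [Finset.sum_coe_sort (Js s) (fun lam => ‖co2 (cx w.g) lam - phi lam‖)]
        exact sum_fin hj0 act h b phi hRS hE (Js s) s (fun lam hl => by
          obtain ⟨a, h1, h2, h3, h4, -⟩ := hJs s lam hl
          exact ⟨a, h1, h2, h3, h4⟩) w hk hcm)
      hR (card_nonzero hcm)
    set Gw : G M → ℂ := loc 0 b c (cx (fun x => w.g x * Psi h b x)) with hGw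
    have hrep : ∀ μ : Mu, co2 Gw μ.1 = m μ * co2 (cx w.g) μ.1 + known μ +
        ∑ s ∈ range (Nat.size M + 1), ∑ lam : Js s,
          (co2 (cx w.g) lam.1 - phi lam.1) * co2 (wl 0 b c (Psi h b) lam.1) μ.1 := by
      intro μ
      rw [hGw, co2_loc_mul hLb hLc h6b h6c]
      have e1 : ∑ s ∈ range (Nat.size M + 1), ∑ lam : Js s,
          (co2 (cx w.g) lam.1 - phi lam.1) * co2 (wl 0 b c (Psi h b) lam.1) μ.1
          = ∑ lam : G M, (co2 (cx w.g) lam - phi lam) * co2 (wl 0 b c (Psi h b) lam) μ.1 := by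
        rw [hsum (fun lam => co2 (cx w.g) lam - phi lam) μ.1]
        refine Finset.sum_congr rfl fun s _ => ?_
        exact Finset.sum_coe_sort (Js s)
          (fun lam => (co2 (cx w.g) lam - phi lam) * co2 (wl 0 b c (Psi h b) lam) μ.1)
      rw [e1, hm, hknown]
      simp only
      rw [add_assoc, ← Finset.sum_add_distrib]
      congr 1
      refine Finset.sum_congr rfl fun lam _ => ?_
      ring
    -- the difference of the two functions
    set Fa : G M → ℂ := fun x => (tb.t b s x : ℂ) - Gw x with hFa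
    have hdiff : (fun x => Fa x - F' s q.2 x) = fun x => pol Mu q.2 x - Gw x := by
      funext x
      rw [hFa, hF']
      simp only
      ring
    have hzero : ∀ k, k ∉ Mu → co2 (fun x => pol Mu q.2 x - Gw x) k = 0 := by
      intro k hk0
      rw [co2_sub, co2_pol, ext0_not _ hk0, hGw, co2_loc hLb hLc h6b h6c]
      have h1 : ¬ (Half 0 b (fa k.1) ∧ Half 0 c (fa k.2)) := by
        intro h2
        exact hk0 (mem_DD.2 ⟨h2.1.band, h2.2.band⟩)
      rw [not_and_or] at h1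
      rcases h1 with h1 | h1
      · rw [ka_zero hLb h1]; simp
      · rw [ka_zero hLc h1]; simp
    have hmem : ∀ μ : Mu, co2 (fun x => pol Mu q.2 x - Gw x) μ.1 = q.2 μ - co2 Gw μ.1 := by
      intro μ
      rw [co2_sub, co2_pol, ext0_mem _ μ.2]
    have hL2 : ∑ k : G M, ‖co2 (fun x => Fa x - F' s q.2 x) k‖ ^ 2 ≤ (1 / 2 ^ 22) ^ 2 := by
      rw [hdiff]
      have e1 : ∑ k : G M, ‖co2 (fun x => pol Mu q.2 x - Gw x) k‖ ^ 2
          = ∑ μ : Mu, ‖co2 Gw μ.1 - q.2 μ‖ ^ 2 := by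
        have e2 : ∑ k ∈ Mu, ‖co2 (fun x => pol Mu q.2 x - Gw x) k‖ ^ 2
            = ∑ k : G M, ‖co2 (fun x => pol Mu q.2 x - Gw x) k‖ ^ 2 := by
          refine Finset.sum_subset (Finset.subset_univ _) fun k _ hk0 => ?_
          rw [hzero k hk0]
          simp
        rw [← e2, ← Finset.sum_coe_sort Mu]
        refine Finset.sum_congr rfl fun μ _ => ?_
        rw [hmem, norm_sub_rev]
      rw [e1]
      have e3 : ∑ μ : Mu, ‖co2 Gw μ.1 - q.2 μ‖ ^ 2 ≤
          (√((8 ^ M : ℕ) : ℝ) * θ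
            + ∑ s ∈ range (Nat.size M + 1), (1 / 2 ^ 24) * (1 / 2 : ℝ) ^ s) ^ 2 := by
        refine le_trans (le_of_eq ?_) hq3
        refine Finset.sum_congr rfl fun μ _ => ?_
        rw [hrep μ]
      refine e3.trans (pow_le_pow_left₀ (by positivity) ?_ 2)
      have e4 : √((8 ^ M : ℕ) : ℝ) * θ ≤ 1 / 2 ^ 28 := by
        have e6 : √((8 ^ M : ℕ) : ℝ) * θ = 8 ^ (8 * j0) / (16 * 8 ^ (6 * (2 * j0) + 8)) := by
          rw [hθ, hReq]
          push_cast
          field_simp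
        rw [e6, div_le_div_iff₀ (by positivity) (by positivity), one_mul]
        have e7 : (8 : ℝ) ^ (8 * j0) * 2 ^ 28 = 16 * 8 ^ (8 * j0 + 8) := by
          rw [pow_add]
          norm_num
          ring
        rw [e7]
        apply mul_le_mul_of_nonneg_left _ (by norm_num)
        apply pow_le_pow_right₀ (by norm_num)
        omega
      have e5 : ∑ s ∈ range (Nat.size M + 1), (1 / 2 ^ 24) * (1 / 2 : ℝ) ^ s ≤ 1 / 2 ^ 23 := by
        rw [← Finset.mul_sum]
        have h3 := (summable_geometric_of_lt_one (by norm_num)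
          (by norm_num : (1 / 2 : ℝ) < 1)).sum_le_tsum
          (range (Nat.size M + 1)) (fun k _ => by positivity)
        rw [tsum_geometric_of_lt_one (by norm_num) (by norm_num)] at h3
        norm_num at h3 ⊢
        linarith
      have e8 : (1 : ℝ) / 2 ^ 28 + 1 / 2 ^ 23 ≤ 1 / 2 ^ 22 := by norm_num
      linarith
    have hband : ∀ k, co2 (fun x => Fa x - F' s q.2 x) k ≠ 0 →
        fa k.1 < 3 * 8 ^ b ∧ fa k.2 < 3 * 8 ^ c := by
      rw [hdiff]
      intro k hk0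
      have h1 : k ∈ Mu := by
        by_contra h2
        exact hk0 (hzero k h2)
      have h2 := mem_DD.1 h1
      exact ⟨h2.1.lt, h2.2.lt⟩
    have hcl : ∀ η : Gr (b + 1) (c + 1) → ℝ, (∀ y, |η y| ≤ 1) →
        |tst 0 b c (Psi h b) (fun x => T x - w.g x) η
          - avgR _ _ (fun y => η y * (F' s q.2 (pt (b + 1) (c + 1) y)).re)| ≤ 1 / 2 ^ 22 := by
      intro η hη
      rw [tst_diff (Psi h b) T w.g η (tb.t b s) hT]
      exact avgR_close hdb hdc Fa (F' s q.2) _ (by positivity) hband hL2 η hη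
    have hex : ∃ η, good s q.2 η := by
      refine ⟨ηs, hηs1, ?_⟩
      have h1 := (abs_le.1 (hcl ηs hηs1.1)).2
      linarith
    have hetq : good s q.2 (et s q.2) := by
      rw [het]
      simp only
      rw [dif_pos hex]
      exact hex.choose_spec
    refine ⟨(s, et s q.2), Finset.mem_image.mpr ⟨(s, q), ?_, rfl⟩, rfl, hetq.1, ?_⟩
    · rw [mem_product]
      exact ⟨mem_univ _, hq⟩
    · have h1 := (abs_le.1 (hcl (et s q.2) hetq.1.1)).1
      have h2 := hetq.2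
      have h3 : (1 : ℝ) / 2 ^ 20 - 1 / 2 ^ 22 - 1 / 2 ^ 22 = 1 / 2 ^ 21 := by norm_num
      simp only
      linarith

end Pool.Agent.H97.CP
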