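import Pool.Agent.H98.CP.St

set_option autoImplicit false

/-! # The lower bound for most sign vectors -/

namespace Pool.Agent.H97.CP

open Finset H98.CP H95.CP

/-- the sign vector indexed by the columns `1, ..., K + 1` -/
def shf (K : ℕ) (ε : Fin (K + 1) → Finset (H75.MT.YK K)) (b : ℕ) : Finset (Fin (8 ^ (K + 2))) :=
  if b = 0 then ∅ else H75.MT.ext ε (b - 1)

lemma shf_inj (K : ℕ) : Function.Injective (shf K) := by
  intro ε ε' h
  funext i
  have h1 := congrFun h (i.val + 1)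
  unfold shf at h1
  rw [if_neg (Nat.succ_ne_zero _), if_neg (Nat.succ_ne_zero _), Nat.add_sub_cancel] at h1
  unfold H75.MT.ext at h1
  rw [dif_pos i.isLt, dif_pos i.isLt] at h1
  exact h1

lemma shf_out (K : ℕ) (ε : Fin (K + 1) → Finset (H75.MT.YK K)) (b : ℕ) (hb : b = 0 ∨ K + 2 ≤ b) :
    shf K ε b = ∅ := by
  unfold shf
  rcases hb with hb | hb
  · rw [if_pos hb]
  · rw [if_neg (by omega)]
    unfold H75.MT.ext
    rw [dif_neg (by omega)]

theorem core (h1 : StFinal) (h2 : StTB) (h3 : StRes) (h4 : StSupT) : StCore := by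
  classical
  obtain ⟨A, hA, K1, hK1⟩ := h4
  obtain ⟨cF, hcF, M1, hM1⟩ := h1 (A + 1) (by linarith)
  refine ⟨min cF 1, lt_min hcF one_pos, max (max K1 M1) 2, fun K hK => ?_⟩
  have hK1' : K1 ≤ K := le_trans (le_trans (le_max_left _ _) (le_max_left _ _)) hK
  have hKM : M1 ≤ K + 2 := by
    have : M1 ≤ K := le_trans (le_trans (le_max_right _ _) (le_max_left _ _)) hK
    omega
  have hK2 : 2 ≤ K := le_trans (le_max_right _ _) hK
  obtain ⟨tb, htb⟩ := h2 K hK2
  have hQ := hK1 K hK1'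
  set Q := univ.filter (fun ε : Fin (K + 1) → Finset (H75.MT.YK K) => ∃ x : G (K + 2),
    A * ((K : ℝ) + 2) < |((H75.MT.TT K (K + 1) (H75.MT.aa K (H75.MT.ext ε))) (tpt x)).re|) with hQdef
  set P := univ.filter (fun ε : Fin (K + 1) → Finset (H75.MT.YK K) =>
    ∃ (Lf : Finset (Fin 2 → ℤ)) (d : (Fin 2 → ℤ) → ℂ), (Lf.card : ℝ) ≤ min cF 1 * K * 8 ^ K ∧
      ∀ x, ‖(H75.MT.TT K (K + 1) (H75.MT.aa K (H75.MT.ext ε)) - H75.MT.tp Lf d) x‖
        ≤ min cF 1 * K) with hPdef
  have hS := hM1 (K + 2) hKM tb ((P \ Q).image (shf K)) (by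
    intro e he
    obtain ⟨ε, hε, rfl⟩ := Finset.mem_image.mp he
    rw [Finset.mem_sdiff] at hε
    obtain ⟨hεP, hεQ⟩ := hε
    rw [hPdef, Finset.mem_filter] at hεP
    rw [hQdef, Finset.mem_filter] at hεQ
    push Not at hεQ
    have hsup := hεQ (Finset.mem_univ _)
    obtain ⟨Lf, d, hLf, hd⟩ := hεP.2
    obtain ⟨w, hw1, hw2⟩ := h3 (K + 2) Lf d
    have hT : ∀ x, ((H75.MT.TT K (K + 1) (H75.MT.aa K (H75.MT.ext ε))) (tpt x)).re
        = tb.T (shf K ε) x := fun x => htb ε x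
    have hdiff : ∀ x : G (K + 2), |tb.T (shf K ε) x - w.g x| ≤ min cF 1 * K := by
      intro x
      rw [← hT, hw2, ← Complex.sub_re]
      refine (Complex.abs_re_le_norm _).trans ?_
      exact hd (tpt x)
    have hKpos : (0 : ℝ) ≤ K := Nat.cast_nonneg K
    have hm1 : min cF 1 ≤ cF := min_le_left _ _
    have hm2 : min cF 1 ≤ 1 := min_le_right _ _
    have hm0 : 0 < min cF 1 := lt_min hcF one_pos
    refine ⟨fun b hb => shf_out K ε b hb, w, ?_, ?_, ?_⟩
    · have e1 : (w.Lam.card : ℝ) ≤ 2 * (Lf.card : ℝ) := by exact_mod_cast hw1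
      have e2 : (8 : ℝ) ^ (K + 2) = 64 * 8 ^ K := by ring
      have e3 : (0 : ℝ) < 8 ^ K := by positivity
      have e4 : min cF 1 * K * 8 ^ K ≤ cF * K * 8 ^ K := by gcongr
      push_cast
      rw [e2]
      have e5 : 0 ≤ cF * K * 8 ^ K := by positivity
      have e6 : 0 ≤ cF * 8 ^ K := by positivity
      nlinarith
    · intro x
      have e1 := hdiff x
      have e2 := hsup x
      rw [hT] at e2
      have e3 : |w.g x| ≤ |tb.T (shf K ε) x| + |tb.T (shf K ε) x - w.g x| := by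
        have := abs_sub_abs_le_abs_sub (w.g x) (tb.T (shf K ε) x)
        rw [abs_sub_comm (w.g x)] at this
        linarith
      push_cast
      nlinarith
    · intro x
      refine (hdiff x).trans ?_
      push_cast
      nlinarith)
  rw [Finset.card_image_of_injective _ (shf_inj K)] at hS
  -- counting
  have hle : P.card ≤ (P \ Q).card + Q.card := by
    have e1 : P ⊆ (P \ Q) ∪ Q := by
      intro x hx
      rw [Finset.mem_union, Finset.mem_sdiff]
      by_cases hq : x ∈ Q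
      · exact Or.inr hq
      · exact Or.inl ⟨hx, hq⟩
    exact (Finset.card_le_card e1).trans (Finset.card_union_le _ _)
  have hS2 : 8 * ((P \ Q).card : ℝ) ≤ 2 ^ (8 ^ (K + 2) * (K + 1)) := by
    have e1 : (2 : ℝ) ^ (8 ^ (K + 2) * (K + 1)) = (2 : ℝ) ^ ((8 : ℝ) ^ (K + 2) * ((K : ℝ) + 1)) := by
      rw [← Real.rpow_natCast]
      push_cast
      rfl
    have e2 : (8 : ℝ) = (2 : ℝ) ^ (3 : ℝ) := by norm_num
    rw [e1]
    calc 8 * ((P \ Q).card : ℝ) ≤ 8 * 2 ^ (((K + 2 : ℕ) : ℝ) * 8 ^ (K + 2) / 2) := by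
          gcongr
      _ = 2 ^ ((3 : ℝ) + ((K + 2 : ℕ) : ℝ) * 8 ^ (K + 2) / 2) := by
          rw [Real.rpow_add two_pos]
          norm_num
      _ ≤ _ := by
          apply Real.rpow_le_rpow_of_exponent_le one_le_two
          push_cast
          have e3 : (64 : ℝ) ≤ 8 ^ (K + 2) := by
            have : (8 : ℝ) ^ 2 ≤ 8 ^ (K + 2) := pow_le_pow_right₀ (by norm_num) (by omega)
            linarith
          have e4 : (2 : ℝ) ≤ K := by exact_mod_cast hK2
          nlinarith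
  have hS3 : 8 * (P \ Q).card ≤ 2 ^ (8 ^ (K + 2) * (K + 1)) := by exact_mod_cast hS2
  omega

end Pool.Agent.H97.CP
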